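import Pool.Agent.H34.STK.Tree
import Pool.Agent.H34.STH.Hthm
import Pool.Agent.H62.AU.Fin

/-!
# [H34 STK CORE] `k` gaps between strings of `K` primes at one of `T` separated scales, `50 k ^ T < 13 (k + 1) ^ T`
-/

set_option autoImplicit false

namespace Pool.Agent.H34.STK

open Filter Finset Pool.Agent.H82.LS Pool.Agent.H62.VK Pool.Agent.H34.RC Pool.Agent.H62.VW Pool.Agent.H19.AS
  Pool.Agent.H62.AS Pool.Agent.H62.AU Pool.Agent.H34.STH

theorem coreK (k K T : ℕ) (hk : 1 ≤ k) (hK : 1 ≤ K) (hkT : 50 * k ^ T < 13 * (k + 1) ^ T) (hTh : ThmH)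
    (hWin : WinU) :
    ∃ D : ℕ, ∀ (L s : ℕ), 0 < L → Nat.Coprime s L → ∀ (Q : ℕ → ℕ), (∀ i, 0 < Q i) → (∀ i, Nat.Coprime (Q i) L) →
      (∀ i j, i ≠ j → Nat.Coprime (Q i) (Q j)) →
      ∀ e : ℝ, 0 < e → ∃ C d B : ℝ, 1 ≤ C ∧ 0 < d ∧ ∀ (M : ℕ) (τ : ℝ) (t : ℕ → ℝ), B ≤ τ * Real.log M →
        (∀ i < T, τ ≤ t i ∧ C * t i ≤ 1 ∧ B * Real.log (t i * Real.log M) ^ D ≤ τ * Real.log M) →
        (∀ i, i + 1 < T → C * t i ≤ t (i + 1)) →
      ∀ w : ℕ → ℕ → ℕ, (∀ i j, Nat.Coprime (w i j) (Q i)) →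
      ∀ x : ℕ → ℕ → ℝ, (∀ i b, 0 ≤ x i b ∧ x i b ≤ 1) →
        d * τ ^ D * M ≤ (({n : ℕ | n < M ∧ ∃ i < T,
          PatN k K L s (Q i) (w i) (x i) (t i * Real.log (Nat.nth Nat.Prime n)) e n}).ncard : ℝ) := by
  classical
  have hT0 : 0 < T := by
    rcases Nat.eq_zero_or_pos T with h | h
    · subst h
      norm_num at hkT
    · exact h
  obtain ⟨n0, hn0⟩ : ∃ n0 : ℕ, n0 = 50 * T * K * k ^ T + 1 := ⟨_, rfl⟩
  have hn01 : 1 ≤ n0 := by omega
  have hF : 50 * Fb k K n0 T < 13 * ((k + 1) ^ T * n0) := by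
    have h1 := Fb_le (K := K) (n0 := n0) hk T
    calc 50 * Fb k K n0 T ≤ 50 * (k ^ T * (n0 + T * K)) := Nat.mul_le_mul_left 50 h1
      _ = 50 * k ^ T * n0 + 50 * T * K * k ^ T := by ring
      _ < 50 * k ^ T * n0 + n0 := by omega
      _ = (50 * k ^ T + 1) * n0 := by ring
      _ ≤ 13 * (k + 1) ^ T * n0 := Nat.mul_le_mul_right n0 hkT
      _ = 13 * ((k + 1) ^ T * n0) := by ring
  have : Finite (Nd k n0 T) := nd_finite k n0 T
  obtain ⟨m, hm⟩ : ∃ m : ℕ, m = (k + 1) ^ T * n0 := ⟨_, rfl⟩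
  obtain ⟨f, -⟩ : ∃ _f : Fin m ≃ Nd k n0 T, True :=
    ⟨(Finite.equivFinOfCardEq (by rw [nd_card, hm])).symm, trivial⟩
  rw [← hm] at hF
  obtain ⟨D, hTS⟩ := hTh m (Fb k K n0 T) hF
  refine ⟨D, ?_⟩
  intro L s hL hs Q hQ hQL hQQ e0 he0
  obtain ⟨Q0, hQ0⟩ : ∃ Q0 : ℕ, Q0 = L * ∏ i ∈ range T, Q i := ⟨_, rfl⟩
  have hQ0pos : 0 < Q0 := by
    rw [hQ0]
    exact Nat.mul_pos hL (Finset.prod_pos fun i _ => hQ i)
  obtain ⟨lam, δ, θ, T', H0, hlam, hlam1, hδ, hθ, hT', hH0, hxx⟩ := hTS Q0 hQ0pos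
  have hkr : (1 : ℝ) ≤ k := by exact_mod_cast hk
  have hn0r : (1 : ℝ) ≤ n0 := by exact_mod_cast hn01
  -- the error
  obtain ⟨e1, he1d⟩ : ∃ e1 : ℝ, e1 = min (e0 / 4) 1 := ⟨_, rfl⟩
  have he1 : 0 < e1 := by rw [he1d]; exact lt_min (by linarith) one_pos
  have he11 : e1 ≤ 1 := by rw [he1d]; exact min_le_right _ _
  have he1e : e1 ≤ e0 / 4 := by rw [he1d]; exact min_le_left _ _
  obtain ⟨η, hηd⟩ : ∃ η, η = min (1 / 4) (e0 / 4) := ⟨_, rfl⟩
  have hη : 0 < η := by rw [hηd]; positivity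
  have hη1 : η ≤ 1 / 4 := hηd ▸ min_le_left _ _
  have hη2 : η ≤ e0 / 4 := hηd ▸ min_le_right _ _
  have hnear := log_near θ T' 1 η hθ hT' one_pos hη
  obtain ⟨d0, xs, hd0, hxs, hwin⟩ := hWin T' hT'
  have hev := (hxs.eventually hxx).and ((hxs.eventually hnear).and ((hxs.eventually_gt_atTop 1).and hwin))
  obtain ⟨M1, hM1⟩ := eventually_atTop.1 hev
  obtain ⟨c1, hc1d⟩ : ∃ c1 : ℝ, c1 = e1 / (16 * n0) := ⟨_, rfl⟩
  have hc1 : 0 < c1 := by rw [hc1d]; exact div_pos he1 (by linarith)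
  have hc1n : 16 * n0 * c1 = e1 := by
    rw [hc1d]
    field_simp
  have hc11 : c1 ≤ 1 := by nlinarith
  obtain ⟨C, hCd⟩ : ∃ C : ℝ, C = max 1 (max (16 * k / lam) (16 * k / e1)) := ⟨_, rfl⟩
  have hC1 : 1 ≤ C := hCd ▸ le_max_left _ _
  have hC2 : 16 * k / lam ≤ C := hCd ▸ (le_max_left _ _).trans (le_max_right _ _)
  have hC3 : 16 * k / e1 ≤ C := hCd ▸ (le_max_right _ _).trans (le_max_right _ _)
  obtain ⟨B, hBd⟩ : ∃ B : ℝ, B = max (max (32 * (k : ℝ)) (Real.log ((M1 : ℝ) + 1))) (H0 * 2 ^ D / c1) := ⟨_, rfl⟩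
  have hB1 : 32 * (k : ℝ) ≤ B := hBd ▸ (le_max_left _ _).trans (le_max_left _ _)
  have hB2 : Real.log ((M1 : ℝ) + 1) ≤ B := hBd ▸ (le_max_right _ _).trans (le_max_left _ _)
  have hB3 : H0 * 2 ^ D ≤ B * c1 := by
    rw [← div_le_iff₀ hc1]
    exact hBd ▸ le_max_right _ _
  have hB32 : 32 ≤ B := by linarith
  refine ⟨C, d0 * (δ * c1 ^ D), B, hC1, by positivity, fun M τ t hB ht hsepC w hw x hx => ?_⟩
  have hτ : 0 < τ := pos_of_scale one_pos ((by linarith : (1 : ℝ) ≤ B).trans hB)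
  have htpos : ∀ i < T, 0 < t i := fun i hi => hτ.trans_le (ht i hi).1
  obtain ⟨tl, htl⟩ : ∃ tl, tl = t (T - 1) := ⟨_, rfl⟩
  obtain ⟨htl1, htl2, htl3⟩ := ht (T - 1) (by omega)
  rw [← htl] at htl1 htl2 htl3
  have htl0 : 0 < tl := hτ.trans_le htl1
  have htle1 : tl ≤ 1 := by nlinarith
  have hlM : 0 ≤ Real.log (M : ℝ) := Real.log_natCast_nonneg M
  have hBM : B ≤ Real.log (M : ℝ) := by
    have h1 : τ * Real.log M ≤ 1 * Real.log M := mul_le_mul_of_nonneg_right (htl1.trans htle1) hlM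
    linarith
  have hMM : M1 ≤ M := by
    have h1 : Real.log ((M1 : ℝ) + 1) ≤ Real.log M := hB2.trans hBM
    have hM0 : (0 : ℝ) < M := by
      by_contra hcon
      have h2 : (M : ℝ) = 0 := le_antisymm (not_lt.1 hcon) (Nat.cast_nonneg M)
      rw [h2, Real.log_zero] at hBM
      linarith
    have h2 : (M1 : ℝ) + 1 ≤ M := (Real.log_le_log_iff (by positivity) hM0).1 h1
    have h3 : ((M1 + 1 : ℕ) : ℝ) ≤ M := by
      push_cast
      exact h2
    have h4 : M1 + 1 ≤ M := by exact_mod_cast h3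
    omega
  obtain ⟨hxx, hnear, hxs1, hlx1, hlx2, hwin⟩ := hM1 M hMM
  generalize xs M = X at hxx hnear hxs1 hlx1 hlx2 hwin
  obtain ⟨y, hyd⟩ : ∃ y, y = Real.log X := ⟨_, rfl⟩
  rw [← hyd] at hxx hnear hlx1 hlx2 hwin
  have hy : 0 < y := by linarith
  have hX0 : 0 < X := by linarith
  -- the scales
  obtain ⟨H, hHd⟩ : ∃ H, H = 16 * k * tl * y := ⟨_, rfl⟩
  have hk0 : (0 : ℝ) < k := by linarith
  have hH : 0 < H := by rw [hHd]; positivity
  obtain ⟨sc, hscd⟩ : ∃ sc : ℕ → ℝ, sc = fun i => |t i| / (16 * k * tl) := ⟨_, rfl⟩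
  have hsc0 : ∀ i, 0 ≤ sc i := fun i => by
    rw [hscd]
    exact div_nonneg (abs_nonneg _) (by positivity)
  have hlu : ∀ i < T, 16 * k * tl * sc i = t i := fun i hi => by
    rw [hscd]
    show 16 * k * tl * (|t i| / (16 * k * tl)) = t i
    rw [abs_of_pos (htpos i hi)]
    field_simp
  have huH : ∀ i < T, sc i * H = t i * y := fun i hi => by
    rw [hHd, ← hlu i hi]
    ring
  have hu : ∀ i < T, 0 < sc i := fun i hi => by
    by_contra hcon
    have h1 : sc i = 0 := le_antisymm (not_lt.1 hcon) (hsc0 i)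
    have h2 := hlu i hi
    rw [h1, mul_zero] at h2
    linarith [htpos i hi]
  have hsep : ∀ i, i + 1 < T → 16 * k * sc i ≤ e1 * sc (i + 1) := by
    intro i hi
    have h1 := hsepC i hi
    have h2 : 0 < sc i := hu i (by omega)
    rw [← hlu i (by omega), ← hlu (i + 1) hi] at h1
    have h3 : C * sc i ≤ sc (i + 1) := by
      by_contra hcon
      have h4 := mul_lt_mul_of_pos_left (not_le.1 hcon) (show 0 < 16 * k * tl by positivity)
      nlinarith
    rw [div_le_iff₀ he1] at hC3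
    calc 16 * k * sc i ≤ C * e1 * sc i := mul_le_mul_of_nonneg_right hC3 h2.le
      _ = e1 * (C * sc i) := by ring
      _ ≤ e1 * sc (i + 1) := mul_le_mul_of_nonneg_left h3 he1.le
  have hscT : 16 * k * sc (T - 1) = 1 := by
    have h1 := hlu (T - 1) (by omega)
    rw [← htl] at h1
    have h2 : (16 * k * sc (T - 1) - 1) * tl = 0 := by linarith
    rcases mul_eq_zero.1 h2 with h3 | h3
    · linarith
    · exact absurd h3 htl0.ne'
  obtain ⟨c, hcd⟩ : ∃ c, c = c1 * sc 0 := ⟨_, rfl⟩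
  have hc0 : 0 < c := by rw [hcd]; exact mul_pos hc1 (hu 0 hT0)
  -- the positions
  obtain ⟨v, hvd⟩ : ∃ v : ℕ → ℕ → ℝ, v = fun i a => ∑ b ∈ range a, (x i b + e1 / 2) * sc i := ⟨_, rfl⟩
  have hvs : ∀ i a, v i (a + 1) = v i a + (x i a + e1 / 2) * sc i := fun i a => by
    rw [hvd]
    exact sum_range_succ _ _
  have hstep : ∀ i a, 0 ≤ (x i a + e1 / 2) * sc i := fun i a =>
    mul_nonneg (by linarith [(hx i a).1]) (hsc0 i)
  have hvmono : ∀ i, Monotone (v i) := fun i => monotone_nat_of_le_succ fun a => by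
    rw [hvs]
    linarith [hstep i a]
  have hv0 : ∀ i a, 0 ≤ v i a := fun i a => by
    rw [hvd]
    exact sum_nonneg fun b _ => hstep i b
  have hvk : ∀ i, v i k ≤ 3 / 2 * k * sc i := fun i => by
    rw [hvd]
    calc ∑ b ∈ range k, (x i b + e1 / 2) * sc i ≤ ∑ _b ∈ range k, 3 / 2 * sc i :=
          sum_le_sum fun b _ => mul_le_mul_of_nonneg_right (by linarith [(hx i b).2]) (hsc0 i)
      _ = 3 / 2 * k * sc i := by
          rw [sum_const, card_range, nsmul_eq_mul]
          ring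
  have hW : ∀ i < T, Wd k n0 v c i ≤ e1 / 8 * sc i := by
    intro i
    induction i with
    | zero =>
      intro _
      show 2 * (n0 : ℝ) * c ≤ _
      refine le_of_eq ?_
      rw [hcd, ← hc1n]
      ring
    | succ i ih =>
      intro hi
      have h1 := ih (by omega)
      have h2 := hsep i hi
      have h3 := hvk i
      have h4 := hsc0 i
      have h5 : e1 / 8 * sc i ≤ 1 / 2 * k * sc i := mul_le_mul_of_nonneg_right (by linarith) h4
      show v i k + Wd k n0 v c i ≤ e1 / 8 * sc (i + 1)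
      linarith
  have hWT : Wd k n0 v c T ≤ 1 / 8 := by
    obtain ⟨T1, rfl⟩ : ∃ T1, T = T1 + 1 := ⟨T - 1, by omega⟩
    have h1 := hW T1 (by omega)
    have h3 := hvk T1
    have h4 := hsc0 T1
    rw [Nat.add_sub_cancel] at hscT
    have h5 : e1 / 8 * sc T1 ≤ 1 / 2 * k * sc T1 := mul_le_mul_of_nonneg_right (by linarith) h4
    show v T1 k + Wd k n0 v c T1 ≤ 1 / 8
    linarith
  have hss : ∀ i < T, ∀ a b, a < b → v i a + Wd k n0 v c i < v i b := by
    intro i hi a b hab
    have h1 := hvs i a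
    have h2 : v i (a + 1) ≤ v i b := hvmono i hab
    have h3 := hW i hi
    have h4 : e1 / 2 * sc i ≤ (x i a + e1 / 2) * sc i :=
      mul_le_mul_of_nonneg_right (by linarith [(hx i a).1]) (hsc0 i)
    have h5 : 0 < e1 * sc i := mul_pos he1 (hu i hi)
    linarith
  have hxe : ∀ i < T, ∀ b < k, |v i (b + 1) - v i b - x i b * sc i| + Wd k n0 v c i < e0 / 4 * sc i := by
    intro i hi b _
    have h1 : v i (b + 1) - v i b - x i b * sc i = e1 / 2 * sc i := by
      rw [hvs]
      ring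
    have h2 := hu i hi
    have h5 : 0 < e1 * sc i := mul_pos he1 h2
    have h6 : e1 * sc i ≤ e0 / 4 * sc i := mul_le_mul_of_nonneg_right he1e h2.le
    rw [h1, abs_of_pos (by linarith)]
    linarith [hW i hi]
  have hv' : ∀ i, ∀ a ≤ k, v i a ≤ v i k := fun i a ha => hvmono i ha
  -- the classes
  have hρ := fun q : Nd k n0 T => exists_rho L s hs Q hQL hQQ (fun i => w i (dg T q i)) (fun i => hw i _) T
  choose ρ hρ1 hρ2 hρ3 using hρ
  rw [← hQ0] at hρ3
  -- the intervals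
  obtain ⟨al, hal⟩ : ∃ al : Fin m → ℝ, al = fun d => c + lo v c T (f d) := ⟨_, rfl⟩
  obtain ⟨be, hbe⟩ : ∃ be : Fin m → ℝ, be = fun d => c + lo v c T (f d) + c := ⟨_, rfl⟩
  obtain ⟨g, hgd⟩ : ∃ g, g = c1 * τ / (16 * k * tl) := ⟨_, rfl⟩
  have hg0 : 0 < g := by rw [hgd]; positivity
  have hgH : g * H = c1 * τ * y := by
    rw [hgd, hHd]
    field_simp
  have hgc : g ≤ c := by
    have h1 : c = c1 * t 0 / (16 * k * tl) := by
      rw [hcd, hscd]
      show c1 * (|t 0| / (16 * k * tl)) = _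
      rw [abs_of_pos (htpos 0 hT0)]
      ring
    rw [h1, hgd]
    exact div_le_div_of_nonneg_right (mul_le_mul_of_nonneg_left (ht 0 hT0).1 hc1.le) (by positivity)
  have hg1 : g ≤ 1 := by
    rw [hgd, div_le_one (by positivity)]
    have h1 : tl ≤ 16 * k * tl := by nlinarith
    nlinarith
  have hint : ∀ d, 0 < al d ∧ al d + g ≤ be d ∧ be d < 1 := fun d => by
    have h1 := lo_bd hc0.le hv0 hv' T (f d)
    rw [hal, hbe]
    exact ⟨by linarith [h1.1], by linarith, by linarith [h1.1, h1.2]⟩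
  have hdisj : ∀ d d', d ≠ d' → be d < al d' ∨ be d' < al d := fun d d' hne => by
    rw [hal, hbe]
    rcases lo_dis hc0 hv0 hv' T hss (f d) (f d') (fun h => hne (f.injective h)) with h | h
    · exact Or.inl (by linarith)
    · exact Or.inr (by linarith)
  have hcount := hxx (fun d => ρ (f d)) (fun d => hρ3 (f d)) al be g H hg0 hint hdisj
    (by
      rw [hHd]
      refine mul_le_mul_of_nonneg_right ?_ hy.le
      rw [div_le_iff₀ hlam] at hC2
      have h1 : 16 * k * tl ≤ C * lam * tl := mul_le_mul_of_nonneg_right hC2 htl0.le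
      have h2 : C * tl * lam ≤ 1 * lam := mul_le_mul_of_nonneg_right htl2 hlam.le
      linarith)
    (by
      rw [hgH]
      have h1 : (1 : ℝ) ≤ 2 ^ D := one_le_pow₀ (by norm_num)
      have h2 : c1 * B ≤ c1 * (τ * y) := by
        refine mul_le_mul_of_nonneg_left (hB.trans ?_) hc1.le
        exact mul_le_mul_of_nonneg_left hlx1 hτ.le
      nlinarith)
    (by
      rw [hgH]
      obtain ⟨z, hz⟩ : ∃ z, z = tl * Real.log M := ⟨_, rfl⟩
      rw [← hz] at htl3
      have hz1 : 32 * k ≤ z := by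
        have h1 : τ * Real.log M ≤ tl * Real.log M := mul_le_mul_of_nonneg_right htl1 hlM
        linarith
      have hz32 : 32 ≤ z := by linarith
      have hHz : H ≤ z ^ 2 := by
        have h1 : H ≤ 32 * k * z := by
          rw [hHd, hz]
          have h2 := mul_le_mul_of_nonneg_left hlx2 (show 0 ≤ 16 * k * tl by positivity)
          linarith
        have h2 : 32 * k * z ≤ z * z := mul_le_mul_of_nonneg_right hz1 (by linarith)
        nlinarith
      have hlz : 0 ≤ Real.log z := Real.log_nonneg (by linarith)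
      have hH1 : 1 ≤ H := by
        have h1 : (1 : ℝ) ≤ 2 ^ D := one_le_pow₀ (by norm_num)
        have h2 : c1 * B ≤ c1 * (τ * y) := by
          refine mul_le_mul_of_nonneg_left (hB.trans ?_) hc1.le
          exact mul_le_mul_of_nonneg_left hlx1 hτ.le
        have h3 : 1 ≤ g * H := by
          rw [hgH]
          nlinarith
        nlinarith
      have h1 : Real.log H ^ D ≤ (2 * Real.log z) ^ D := by
        refine pow_le_pow_left₀ (Real.log_nonneg hH1) ?_ D
        have h2 := Real.log_le_log hH hHz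
        rw [Real.log_pow] at h2
        exact_mod_cast h2
      rw [mul_pow] at h1
      have h2 : H0 * Real.log H ^ D ≤ H0 * 2 ^ D * Real.log z ^ D := by
        have := mul_le_mul_of_nonneg_left h1 (by linarith : 0 ≤ H0)
        linarith
      have h3 : H0 * 2 ^ D * Real.log z ^ D ≤ B * c1 * Real.log z ^ D :=
        mul_le_mul_of_nonneg_right hB3 (pow_nonneg hlz D)
      have h4 : c1 * (B * Real.log z ^ D) ≤ c1 * (τ * Real.log M) := mul_le_mul_of_nonneg_left htl3 hc1.le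
      have h5 : c1 * (τ * Real.log M) ≤ c1 * (τ * y) :=
        mul_le_mul_of_nonneg_left (mul_le_mul_of_nonneg_left hlx1 hτ.le) hc1.le
      linarith)
  have hgHy : g * H / y = c1 * τ := by
    rw [hgH]
    field_simp
  rw [hgHy] at hcount
  have hfin := hwin (fun n => ∃ i < T,
    PatN k K L s (Q i) (w i) (x i) (t i * Real.log (Nat.nth Nat.Prime n)) e0 n)
    (δ * (c1 * τ) ^ D) _ (by positivity) hcount (by
      intro N hN
      rw [mem_filter, mem_range, Nat.lt_succ_iff] at hN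
      obtain ⟨h1, h2, hG1, hG2⟩ := hN
      have hN1 : (N : ℝ) ≤ T' * X := (Nat.le_floor_iff (by positivity)).1 h1
      have hN0 : (0 : ℝ) ≤ N := Nat.cast_nonneg N
      obtain ⟨hit, hhit⟩ : ∃ hit : Fin m → Prop,
        hit = fun d => ∃ y : ℕ, al d * H ≤ (y : ℝ) ∧ (y : ℝ) ≤ be d * H ∧ (N + y).Prime := ⟨_, rfl⟩
      obtain ⟨i, hi, n, h4, h5, h6⟩ := tree_main (k := k) (K := K) (L := L) (s := s) (N := N) (n0 := n0) (Q := Q)
        (w := w) (x := x) (sc := sc) (v := v) (c := c) (H := H) (e := e0 / 4) hk hK hc0 hH hv0 hv' T hss hxe c hc0.le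
        ((univ.filter hit).map f.toEmbedding) (by
          rw [card_map, hhit]
          exact hG2)
        (by
          intro q hq
          obtain ⟨d, hd, rfl⟩ := mem_map.1 hq
          have h3 := (mem_filter.1 hd).2
          rw [hhit, hal, hbe] at h3
          exact h3)
        (by
          intro p hp h3 h4
          have h8 := mul_le_mul_of_nonneg_right (show c + Wd k n0 v c T ≤ 1 by
            have h1 := lo_bd hc0.le hv0 hv' T (f ⟨0, by
              rw [hm]
              exact Nat.mul_pos (Nat.pow_pos (by omega)) hn01⟩)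
            linarith [h1.1, h1.2]) hH.le
          have h9 := mul_pos hc0 hH
          obtain ⟨y', rfl⟩ : ∃ y', p = N + y' := ⟨p - N, by
            have : N ≤ p := by
              have : (N : ℝ) ≤ p := by linarith
              exact_mod_cast this
            omega⟩
          push_cast at h3 h4
          obtain ⟨d, h5, h6, h7⟩ := hG1 y' (by linarith) hp
          rw [hal] at h5
          rw [hbe] at h6
          refine ⟨f d, ?_, ?_, ?_, fun i hi => ?_⟩
          · push_cast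
            linarith
          · push_cast
            linarith
          · exact (h7.of_dvd (by rw [hQ0]; exact Dvd.intro _ rfl)).trans (hρ1 (f d))
          · exact (h7.of_dvd (by
              rw [hQ0]
              exact (dvd_prod_of_mem Q (mem_range.2 hi)).trans (Dvd.intro_left _ rfl))).trans (hρ2 (f d) i hi))
      have hcW : c + Wd k n0 v c T ≤ 1 := by
        have h1 := lo_bd hc0.le hv0 hv' T (f ⟨0, by
          rw [hm]
          exact Nat.mul_pos (Nat.pow_pos (by omega)) hn01⟩)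
        linarith [h1.1, h1.2]
      have hHy : H ≤ y := by
        rw [hHd]
        rw [div_le_iff₀ hlam] at hC2
        have h7 : 16 * k * tl ≤ 1 := by
          have h1 : 16 * k * tl ≤ C * lam * tl := mul_le_mul_of_nonneg_right hC2 htl0.le
          have h2 : C * tl * lam ≤ 1 * lam := mul_le_mul_of_nonneg_right htl2 hlam.le
          linarith
        have h8 := mul_le_mul_of_nonneg_right h7 hy.le
        linarith
      have h7 := mul_pos hc0 hH
      have h8 := mul_le_mul_of_nonneg_right hcW hH.le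
      have h10 : (N : ℝ) ≤ Nat.nth Nat.Prime n := by linarith
      have h11 : (Nat.nth Nat.Prime n : ℝ) ≤ N + y := by linarith
      refine ⟨hN1, n, ⟨i, hi, ?_⟩, by exact_mod_cast h10, h11⟩
      rw [huH i hi] at h6
      have h13 := hnear (Nat.nth Nat.Prime n) (h2.trans h10) (by linarith)
      have h14 : |t i * Real.log (Nat.nth Nat.Prime n) - t i * y| ≤ η * (t i * y) := by
        rw [← mul_sub, abs_mul, abs_of_pos (htpos i hi)]
        calc t i * |Real.log (Nat.nth Nat.Prime n) - y| ≤ t i * (η * y) :=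
              mul_le_mul_of_nonneg_left h13 (htpos i hi).le
          _ = η * (t i * y) := by ring
      exact patN_scale he0 (hx i) (mul_pos (htpos i hi) hy) hη1 hη2 h14 h6)
  refine le_trans (le_of_eq ?_) hfin
  rw [mul_pow]
  ring

end Pool.Agent.H34.STK
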