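import Pool.Agent.H82.LS.Df
import Pool.Agent.H21.ST.Nth

/-!
# [H34 STK GRP] `k + 1` groups of primes and nothing else between them: `k` gaps between strings of `K` primes
-/

set_option autoImplicit false

namespace Pool.Agent.H34.STK

open Filter Finset Pool.Agent.H82.LS

/-- `k + 1` strings of at least `K` consecutive primes, the string number `j` has the indices `m j ≤ i < m (j + 1)`, its
primes are `w j`, its length is less than `e z`, the gap after it is `x j z` up to `e z` -/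
def PatN (k K L s Q : ℕ) (w : ℕ → ℕ) (x : ℕ → ℝ) (z e : ℝ) (n : ℕ) : Prop :=
  ∃ m : ℕ → ℕ, m 0 = n ∧
    (∀ j ≤ k, m j + K ≤ m (j + 1) ∧ (Nat.nth Nat.Prime (m (j + 1) - 1) : ℝ) - Nat.nth Nat.Prime (m j) < e * z ∧
      ∀ i, m j ≤ i → i < m (j + 1) → Nat.nth Nat.Prime i ≡ s [MOD L] ∧ Nat.nth Nat.Prime i ≡ w j [MOD Q]) ∧
    ∀ j < k, |(gap (m (j + 1) - 1) : ℝ) - x j * z| < e * z

/-- `k + 1` groups of primes and nothing else -/
theorem pat_grp {k K L s Q N : ℕ} {w : ℕ → ℕ} {x : ℕ → ℝ} {z e A W : ℝ} {V : ℕ → ℝ} (hk : 1 ≤ k) (hK : 1 ≤ K)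
    (hA : 0 ≤ A) (hW : 0 ≤ W) (hV0 : ∀ b, 0 ≤ V b) (hsep : ∀ a b, a < b → V a + W < V b)
    (h1 : ∀ b < k, |V (b + 1) - V b - x b * z| + W < e * z)
    (hin : ∀ p : ℕ, p.Prime → N + A ≤ p → (p : ℝ) ≤ N + A + V k + W →
      ∃ b ≤ k, N + A + V b ≤ p ∧ (p : ℝ) ≤ N + A + V b + W ∧ p ≡ s [MOD L] ∧ p ≡ w b [MOD Q])
    (S : ℕ → Finset ℕ) (hS : ∀ b ≤ k, K ≤ (S b).card)
    (hS' : ∀ b ≤ k, ∀ p ∈ S b, p.Prime ∧ N + A + V b ≤ p ∧ (p : ℝ) ≤ N + A + V b + W) :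
    ∃ n : ℕ, N + A ≤ Nat.nth Nat.Prime n ∧ (Nat.nth Nat.Prime n : ℝ) ≤ N + A + V k + W ∧
      PatN k K L s Q w x z e n := by
  have hinf := Nat.infinite_setOfPred_prime
  have hN : (0 : ℝ) ≤ N := Nat.cast_nonneg N
  have hVmono : ∀ a b, a ≤ b → V a ≤ V b := by
    intro a b hab
    rcases Nat.lt_or_eq_of_le hab with h | h
    · linarith [hsep a b h]
    · rw [h]
  have hWe : W < e * z := by
    have h2 := h1 0 (by omega)
    have := abs_nonneg (V (0 + 1) - V 0 - x 0 * z)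
    linarith
  obtain ⟨ℓ, hℓ⟩ : ∃ ℓ : ℕ → ℕ, ℓ = fun b => ⌈(N : ℝ) + A + V b⌉₊ := ⟨_, rfl⟩
  obtain ⟨μ, hμ⟩ : ∃ μ : ℕ → ℕ, μ = fun b => ⌊(N : ℝ) + A + V b + W⌋₊ + 1 := ⟨_, rfl⟩
  have rℓ : ∀ b p : ℕ, ℓ b ≤ p ↔ (N : ℝ) + A + V b ≤ p := fun b p => by rw [hℓ]; exact Nat.ceil_le
  have rμ : ∀ b p : ℕ, p < μ b ↔ (p : ℝ) ≤ N + A + V b + W := fun b p => by
    rw [hμ, Nat.lt_succ_iff]
    exact Nat.le_floor_iff (by linarith [hV0 b])
  have hℓμ : ∀ b ≤ k, ℓ b ≤ μ b := by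
    intro b hb
    obtain ⟨p, hp⟩ := Finset.card_pos.1 (lt_of_lt_of_le (by omega : 0 < K) (hS b hb))
    obtain ⟨-, h2, h3⟩ := hS' b hb p hp
    exact ((rℓ b p).2 h2).trans ((rμ b p).2 h3).le
  have hμℓ : ∀ a b, a < b → μ a ≤ ℓ b := by
    intro a b hab
    by_contra hcon
    have h2 := (rμ a (ℓ b)).1 (not_le.1 hcon)
    have h3 := (rℓ b (ℓ b)).1 le_rfl
    linarith [hsep a b hab]
  have c1 : ∀ b ≤ k, Nat.count Nat.Prime (ℓ b) + K ≤ Nat.count Nat.Prime (μ b) := fun b hb =>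
    (Nat.add_le_add_left (hS b hb) _).trans (Pool.Agent.H21.ST.count_add (hℓμ b hb) (S b) fun p hp => by
      obtain ⟨a, b', c⟩ := hS' b hb p hp
      exact ⟨(rℓ b p).2 b', (rμ b p).2 c, a⟩)
  have hge : ∀ (j m : ℕ), Nat.count Nat.Prime m ≤ j → m ≤ Nat.nth Nat.Prime j := by
    intro j m hj
    by_contra hcon
    push Not at hcon
    have hp : (Nat.nth Nat.Prime j).Prime := Nat.nth_mem_of_infinite hinf j
    have h2 : Nat.count Nat.Prime (Nat.nth Nat.Prime j) < Nat.count Nat.Prime m := Nat.count_strict_mono hp hcon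
    rw [Nat.count_nth_of_infinite hinf] at h2
    omega
  -- nothing between two groups
  have c2 : ∀ b < k, Nat.count Nat.Prime (μ b) = Nat.count Nat.Prime (ℓ (b + 1)) := by
    intro b hb
    refine le_antisymm (Nat.count_monotone _ (hμℓ b (b + 1) (Nat.lt_succ_self b))) ?_
    by_contra hcon
    push Not at hcon
    have hp : (Nat.nth Nat.Prime (Nat.count Nat.Prime (μ b))).Prime := Nat.nth_mem_of_infinite hinf _
    have e1 := hge _ (μ b) le_rfl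
    have e2 : Nat.nth Nat.Prime (Nat.count Nat.Prime (μ b)) < ℓ (b + 1) := Nat.nth_lt_of_lt_count hcon
    generalize Nat.nth Nat.Prime (Nat.count Nat.Prime (μ b)) = p at hp e1 e2
    have e3 : (N : ℝ) + A + V b + W < p := by
      by_contra h
      have := (rμ b p).2 (not_lt.1 h)
      omega
    have e4 : (p : ℝ) < N + A + V (b + 1) := by
      by_contra h
      have := (rℓ (b + 1) p).2 (not_lt.1 h)
      omega
    obtain ⟨a, ha, h2, h3, -⟩ := hin p hp (by linarith [hV0 b]) (by linarith [hVmono (b + 1) k hb])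
    rcases Nat.lt_or_ge b a with h | h
    · linarith [hVmono (b + 1) a h]
    · linarith [hVmono a b h]
  -- the primes of a group
  have P : ∀ b ≤ k, ∀ j : ℕ, Nat.count Nat.Prime (ℓ b) ≤ j → j < Nat.count Nat.Prime (μ b) →
      (N + A + V b ≤ Nat.nth Nat.Prime j ∧ (Nat.nth Nat.Prime j : ℝ) ≤ N + A + V b + W) ∧
      Nat.nth Nat.Prime j ≡ s [MOD L] ∧ Nat.nth Nat.Prime j ≡ w b [MOD Q] := by
    intro b hb j hj1 hj2
    have hp : (Nat.nth Nat.Prime j).Prime := Nat.nth_mem_of_infinite hinf j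
    have e1 := (rℓ b _).1 (hge j (ℓ b) hj1)
    have e2 := (rμ b _).1 (Nat.nth_lt_of_lt_count hj2)
    refine ⟨⟨e1, e2⟩, ?_⟩
    obtain ⟨a, ha, h2, h3, h4⟩ := hin _ hp (by linarith [hV0 b]) (by linarith [hVmono b k hb])
    rcases Nat.lt_trichotomy a b with h | h | h
    · linarith [hsep a b h]
    · rw [← h]
      exact h4
    · linarith [hsep b a h]
  obtain ⟨m, hm0, hm1⟩ : ∃ m : ℕ → ℕ, m 0 = Nat.count Nat.Prime (ℓ 0) ∧ ∀ b, m (b + 1) = Nat.count Nat.Prime (μ b) :=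
    ⟨fun b => match b with
      | 0 => Nat.count Nat.Prime (ℓ 0)
      | b + 1 => Nat.count Nat.Prime (μ b), rfl, fun _ => rfl⟩
  have hm : ∀ b ≤ k, m b = Nat.count Nat.Prime (ℓ b) := by
    intro b hb
    cases b with
    | zero => exact hm0
    | succ b => rw [hm1, c2 b hb]
  have q : ∀ b ≤ k, ∀ i, m b ≤ i → i < m (b + 1) → (N + A + V b ≤ Nat.nth Nat.Prime i ∧
      (Nat.nth Nat.Prime i : ℝ) ≤ N + A + V b + W) ∧
      Nat.nth Nat.Prime i ≡ s [MOD L] ∧ Nat.nth Nat.Prime i ≡ w b [MOD Q] := by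
    intro b hb i h2 h3
    rw [hm b hb] at h2
    rw [hm1] at h3
    exact P b hb i h2 h3
  have hmK : ∀ b ≤ k, m b + K ≤ m (b + 1) := by
    intro b hb
    rw [hm b hb, hm1]
    exact c1 b hb
  have q0 : ∀ b ≤ k, N + A + V b ≤ Nat.nth Nat.Prime (m b) ∧ (Nat.nth Nat.Prime (m b) : ℝ) ≤ N + A + V b + W :=
    fun b hb => by
      have := hmK b hb
      exact (q b hb (m b) le_rfl (by omega)).1
  have q0' : ∀ b ≤ k, N + A + V b ≤ Nat.nth Nat.Prime (m (b + 1) - 1) ∧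
      (Nat.nth Nat.Prime (m (b + 1) - 1) : ℝ) ≤ N + A + V b + W :=
    fun b hb => by
      have := hmK b hb
      exact (q b hb _ (by omega) (by omega)).1
  refine ⟨m 0, by linarith [(q0 0 (Nat.zero_le k)).1, hV0 0],
    by linarith [(q0 0 (Nat.zero_le k)).2, hVmono 0 k (Nat.zero_le k)], m, rfl, fun b hb => ⟨hmK b hb, ?_,
    fun i h2 h3 => (q b hb i h2 h3).2⟩, fun b hb => ?_⟩
  · linarith [(q0 b hb).1, (q0' b hb).2]
  · have h4 := hmK b hb.le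
    obtain ⟨i, hi⟩ : ∃ i, i + 1 = m (b + 1) := ⟨m (b + 1) - 1, by omega⟩
    have hi' : m (b + 1) - 1 = i := by omega
    have e1 := q0 (b + 1) hb
    have e2 := q0' b hb.le
    rw [hi'] at e2
    rw [← hi] at e1
    have hlt : Nat.nth Nat.Prime i < Nat.nth Nat.Prime (i + 1) := (Nat.nth_lt_nth hinf).2 (Nat.lt_succ_self i)
    have hg : (gap i : ℝ) = (Nat.nth Nat.Prime (i + 1) : ℝ) - Nat.nth Nat.Prime i := by
      unfold gap
      rw [Nat.cast_sub hlt.le]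
    have h2 := abs_le.1 (le_refl |V (b + 1) - V b - x b * z|)
    have h3 := h1 b hb
    rw [hi', hg, abs_lt]
    constructor
    · linarith [e1.1, e1.2, e2.1, e2.2, h2.1, h2.2]
    · linarith [e1.1, e1.2, e2.1, e2.2, h2.1, h2.2]

/-- the pattern at a scale close by -/
theorem patN_scale {k K L s Q : ℕ} {w : ℕ → ℕ} {x : ℕ → ℝ} {z z' e η : ℝ} {n : ℕ} (he : 0 < e)
    (hx : ∀ b, 0 ≤ x b ∧ x b ≤ 1) (hz : 0 < z) (hη : η ≤ 1 / 4) (hηe : η ≤ e / 4) (hzz : |z' - z| ≤ η * z)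
    (h : PatN k K L s Q w x z (e / 4) n) : PatN k K L s Q w x z' e n := by
  obtain ⟨m, h0, h3, h4⟩ := h
  have hz' := abs_le.1 hzz
  have hz1 : 3 / 4 * z ≤ z' := by nlinarith [hz'.1]
  have hez : e * (3 / 4 * z) ≤ e * z' := mul_le_mul_of_nonneg_left hz1 he.le
  have hez0 : 0 < e * z := mul_pos he hz
  have hηz : η * z ≤ e / 4 * z := mul_le_mul_of_nonneg_right hηe hz.le
  refine ⟨m, h0, fun b hb => ⟨(h3 b hb).1, by linarith [(h3 b hb).2.1], (h3 b hb).2.2⟩, fun b hb => ?_⟩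
  have hx1 : |x b * z' - x b * z| ≤ e / 4 * z := by
    rw [← mul_sub, abs_mul, abs_of_nonneg (hx b).1]
    calc x b * |z' - z| ≤ 1 * |z' - z| := mul_le_mul_of_nonneg_right (hx b).2 (abs_nonneg _)
      _ ≤ e / 4 * z := by rw [one_mul]; exact hzz.trans hηz
  have h5 := abs_lt.1 (h4 b hb)
  have h6 := abs_le.1 hx1
  rw [abs_lt]
  constructor
  · linarith [h5.1, h6.2]
  · linarith [h5.2, h6.1]

end Pool.Agent.H34.STK
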