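import Pool.Agent.H34.STK.Core
import Pool.Agent.H62.AU.Main

/-!
# [H34 STK MAIN] `k` gaps between strings of primes, at one of `T` separated scales: the final theorem `strk`
-/

set_option autoImplicit false

namespace Pool.Agent.H34.STK

open Filter Finset Pool.Agent.H82.LS Pool.Agent.H62.AU Pool.Agent.H62.AS Pool.Agent.H34.STH

/-- `k + 1` strings of at least `K` consecutive primes, the string number `j` consists of the primes with the indices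
`m j ≤ i < m (j + 1)`; they are `w j` modulo `Q` and `s` modulo `L`; it is shorter than `e h`; the gap between the strings number
`j` and `j + 1` is `u j h` up to `e h` -/
def Strings {k : ℕ} (K L s Q : ℕ) (w : Fin (k + 1) → ℕ) (u : Fin k → ℝ) (h e : ℝ) (n : ℕ) : Prop :=
  ∃ m : Fin (k + 2) → ℕ, m 0 = n ∧
    (∀ j : Fin (k + 1), m j.castSucc + K ≤ m j.succ ∧
      ((Nat.nth Nat.Prime (m j.succ - 1) : ℝ) - Nat.nth Nat.Prime (m j.castSucc) < e * h) ∧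
      ∀ i, m j.castSucc ≤ i → i < m j.succ →
        Nat.nth Nat.Prime i ≡ s [MOD L] ∧ Nat.nth Nat.Prime i ≡ w j [MOD Q]) ∧
    ∀ j : Fin k, |(gap (m j.succ.castSucc - 1) : ℝ) - u j * h| < e * h

theorem strings_of {k K L s Q : ℕ} {w : Fin (k + 1) → ℕ} {u : Fin k → ℝ} {w' : ℕ → ℕ} {u' : ℕ → ℝ} {h e : ℝ} {n : ℕ}
    (hw : ∀ j : Fin (k + 1), w' j = w j) (hu : ∀ j : Fin k, u' j = u j) (hP : PatN k K L s Q w' u' h e n) :
    Strings K L s Q w u h e n := by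
  obtain ⟨m, h0, h1, h2⟩ := hP
  refine ⟨fun j => m j, h0, fun j => ?_, fun j => ?_⟩
  · obtain ⟨a, b, c⟩ := h1 j (Nat.lt_succ_iff.1 j.2)
    refine ⟨a, b, fun i hi hi' => ?_⟩
    have h3 := c i hi hi'
    rw [hw] at h3
    exact h3
  · have h3 := h2 j j.2
    rw [hu] at h3
    exact h3

theorem core_finK (k K T : ℕ) (hk : 1 ≤ k) (hK : 1 ≤ K) (hkT : 50 * k ^ T < 13 * (k + 1) ^ T) :
    ∃ D : ℕ, ∀ (L s : ℕ), 0 < L → Nat.Coprime s L → ∀ (Q : Fin T → ℕ), (∀ i, 0 < Q i) → (∀ i, Nat.Coprime (Q i) L) →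
      (∀ i j, i ≠ j → Nat.Coprime (Q i) (Q j)) →
      ∀ e : ℝ, 0 < e → ∃ C d B : ℝ, 1 ≤ C ∧ 0 < d ∧ ∀ (M : ℕ) (τ : ℝ) (t : Fin T → ℝ), ChainU C B D M τ t →
      ∀ w : Fin T → Fin (k + 1) → ℕ, (∀ i j, Nat.Coprime (w i j) (Q i)) →
      ∀ x : Fin T → Fin k → ℝ, (∀ i j, 0 ≤ x i j ∧ x i j ≤ 1) →
        d * τ ^ D * M ≤ (({n : ℕ | n < M ∧ ∃ i : Fin T,
          Strings K L s (Q i) (w i) (x i) (t i * Real.log (Nat.nth Nat.Prime n)) e n}).ncard : ℝ) := by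
  classical
  obtain ⟨D, hD⟩ := coreK k K T hk hK hkT thmH winU
  refine ⟨D, fun L s hL hs Q hQ hQL hQQ e he => ?_⟩
  obtain ⟨Qf, hQf⟩ : ∃ Qf : ℕ → ℕ, Qf = fun i => if h : i < T then Q ⟨i, h⟩ else 1 := ⟨_, rfl⟩
  have q1 : ∀ i (h : i < T), Qf i = Q ⟨i, h⟩ := fun i h => by rw [hQf]; exact dif_pos h
  have q2 : ∀ i, ¬ i < T → Qf i = 1 := fun i h => by rw [hQf]; exact dif_neg h
  obtain ⟨C, d, B, hC1, hd, hC⟩ := hD L s hL hs Qf
    (fun i => by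
      by_cases h : i < T
      · rw [q1 i h]; exact hQ _
      · rw [q2 i h]; exact one_pos)
    (fun i => by
      by_cases h : i < T
      · rw [q1 i h]; exact hQL _
      · rw [q2 i h]; exact Nat.coprime_one_left _)
    (fun i j hij => by
      by_cases h : i < T
      · by_cases h' : j < T
        · rw [q1 i h, q1 j h']
          exact hQQ _ _ (fun h3 => hij (Fin.mk.inj h3))
        · rw [q2 j h']; exact Nat.coprime_one_right _
      · rw [q2 i h]; exact Nat.coprime_one_left _) e he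
  refine ⟨C, d, B, hC1, hd, fun M τ t ht w hw x hx => ?_⟩
  obtain ⟨ht1, ht2, ht3⟩ := ht
  obtain ⟨tf, htf⟩ : ∃ tf : ℕ → ℝ, tf = fun i => if h : i < T then t ⟨i, h⟩ else 0 := ⟨_, rfl⟩
  obtain ⟨wf, hwf⟩ : ∃ wf : ℕ → ℕ → ℕ, wf = fun i j => if h : i < T then
    (if h' : j < k + 1 then w ⟨i, h⟩ ⟨j, h'⟩ else 1) else 1 := ⟨_, rfl⟩
  obtain ⟨xf, hxf⟩ : ∃ xf : ℕ → ℕ → ℝ, xf = fun i j => if h : i < T then
    (if h' : j < k then x ⟨i, h⟩ ⟨j, h'⟩ else 0) else 0 := ⟨_, rfl⟩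
  have l1 : ∀ i (h : i < T), tf i = t ⟨i, h⟩ := fun i h => by rw [htf]; exact dif_pos h
  have h := hC M τ tf ht1 (fun i hi => by rw [l1 i hi]; exact ht2 _)
    (fun i hi => by
      rw [l1 i (by omega), l1 (i + 1) hi]
      exact ht3 _ _ (Fin.mk_lt_mk.2 (Nat.lt_succ_self i)))
    wf
    (fun i j => by
      rw [hwf]
      show Nat.Coprime (if h : i < T then (if h' : j < k + 1 then w ⟨i, h⟩ ⟨j, h'⟩ else 1) else 1) (Qf i)
      split_ifs with h h'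
      · rw [q1 i h]
        exact hw _ _
      · exact Nat.coprime_one_left _
      · exact Nat.coprime_one_left _)
    xf
    (fun i j => by
      rw [hxf]
      show 0 ≤ (if h : i < T then (if h' : j < k then x ⟨i, h⟩ ⟨j, h'⟩ else 0) else 0) ∧
        (if h : i < T then (if h' : j < k then x ⟨i, h⟩ ⟨j, h'⟩ else 0) else 0) ≤ (1 : ℝ)
      split_ifs with h h'
      · exact hx _ _
      · exact ⟨le_rfl, zero_le_one⟩
      · exact ⟨le_rfl, zero_le_one⟩)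
  refine h.trans (Nat.cast_le.2 (Set.ncard_le_ncard (fun n hn => ?_)
    ((Set.finite_lt_nat M).subset fun n hn => hn.1)))
  obtain ⟨hn, i, hi, h3⟩ := hn
  rw [q1 i hi, l1 i hi] at h3
  refine ⟨hn, ⟨i, hi⟩, strings_of (fun j => ?_) (fun j => ?_) h3⟩
  · rw [hwf]
    show (if h : i < T then (if h' : (j : ℕ) < k + 1 then w ⟨i, h⟩ ⟨j, h'⟩ else 1) else 1) = _
    rw [dif_pos hi, dif_pos j.2]
  · rw [hxf]
    show (if h : i < T then (if h' : (j : ℕ) < k then x ⟨i, h⟩ ⟨j, h'⟩ else 0) else 0) = _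
    rw [dif_pos hi, dif_pos j.2]

/-- **`k` gaps between strings of `K` primes, at one of `T` separated scales**, `50 k ^ T < 13 (k + 1) ^ T` -/
theorem strk (k K T : ℕ) (hk : 1 ≤ k) (hK : 1 ≤ K) (hkT : 50 * k ^ T < 13 * (k + 1) ^ T) :
    ∃ D : ℕ, ∀ (L s : ℕ), 0 < L → Nat.Coprime s L → ∀ (Q : Fin T → ℕ), (∀ i, 0 < Q i) → (∀ i, Nat.Coprime (Q i) L) →
      (∀ i j, i ≠ j → Nat.Coprime (Q i) (Q j)) →
      ∀ e : ℝ, 0 < e → ∃ C d B : ℝ, 1 ≤ C ∧ 0 < d ∧ ∀ (M : ℕ) (τ : ℝ) (t : Fin T → ℝ), ChainU C B D M τ t →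
        ∃ i, ∀ w : Fin (k + 1) → ℕ, (∀ j, Nat.Coprime (w j) (Q i)) → ∀ u : Fin k → ℝ, (∀ j, 0 ≤ u j ∧ u j ≤ 1) →
          d * τ ^ D * M ≤ (({n : ℕ | n < M ∧
            Strings K L s (Q i) w u (t i * Real.log (Nat.nth Nat.Prime n)) e n}).ncard : ℝ) := by
  classical
  obtain ⟨D, hD⟩ := core_finK k K T hk hK hkT
  refine ⟨D, fun L s hL hs Q hQ hQL hQQ e he => ?_⟩
  have hT0 : 0 < T := by
    rcases Nat.eq_zero_or_pos T with h | h
    · subst h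
      norm_num at hkT
    · exact h
  obtain ⟨C, d, B, hC, hd, hU⟩ := hD L s hL hs Q hQ hQL hQQ e he
  have hTr : (0 : ℝ) < T := by exact_mod_cast hT0
  refine ⟨C, d / T, B, hC, by positivity, fun M τ t ht => ?_⟩
  by_contra hcon
  push Not at hcon
  choose w hw x hx hcnt using hcon
  have h1 := hU M τ t ht w hw x hx
  have h7 := ncard_ex_le M (fun (i : Fin T) n =>
    Strings K L s (Q i) (w i) (x i) (t i * Real.log (Nat.nth Nat.Prime n)) e n)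
  have hnon : (univ : Finset (Fin T)).Nonempty := ⟨⟨0, hT0⟩, mem_univ _⟩
  have hlt2 : ∑ i : Fin T, (({n : ℕ | n < M ∧
      Strings K L s (Q i) (w i) (x i) (t i * Real.log (Nat.nth Nat.Prime n)) e n}).ncard : ℝ) <
      ∑ _i : Fin T, d / T * τ ^ D * M := sum_lt_sum_of_nonempty hnon fun i _ => hcnt i
  rw [sum_const, card_univ, Fintype.card_fin, nsmul_eq_mul] at hlt2
  have h5 : (T : ℝ) * (d / T * τ ^ D * M) = d * τ ^ D * M := by
    field_simp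
  rw [h5] at hlt2
  linarith

/-- `T = 2 k` is enough -/
theorem two_mul_ok (k : ℕ) (hk : 1 ≤ k) : 50 * k ^ (2 * k) < 13 * (k + 1) ^ (2 * k) := by
  have hkr : (0 : ℝ) < k := by exact_mod_cast hk
  have h1 : (2 : ℝ) ≤ (1 + 1 / k) ^ k := by
    have h2 := one_add_mul_le_pow (show (-2 : ℝ) ≤ 1 / k by
      have : (0 : ℝ) < 1 / k := by positivity
      linarith) k
    have h3 : (1 : ℝ) + k * (1 / k) = 2 := by
      field_simp
      norm_num
    linarith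
  have h4 : 2 * (k : ℝ) ^ k ≤ ((k : ℝ) + 1) ^ k := by
    have h5 : ((k : ℝ) + 1) ^ k = (1 + 1 / k) ^ k * (k : ℝ) ^ k := by
      rw [← mul_pow]
      congr 1
      field_simp
    rw [h5]
    exact mul_le_mul_of_nonneg_right h1 (by positivity)
  have h6 : 2 * k ^ k ≤ (k + 1) ^ k := by exact_mod_cast h4
  have h7 : (2 * k ^ k) * (2 * k ^ k) ≤ (k + 1) ^ k * (k + 1) ^ k := Nat.mul_le_mul h6 h6
  have h8 : k ^ (2 * k) = k ^ k * k ^ k := by rw [two_mul, pow_add]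
  have h9 : (k + 1) ^ (2 * k) = (k + 1) ^ k * (k + 1) ^ k := by rw [two_mul, pow_add]
  have h10 : 0 < k ^ k * k ^ k := Nat.mul_pos (Nat.pow_pos hk) (Nat.pow_pos hk)
  rw [h8, h9]
  nlinarith

/-- **`k` gaps between strings of `K` primes, at one of `2 k` separated scales** -/
theorem strk2 (k K : ℕ) (hk : 1 ≤ k) (hK : 1 ≤ K) :
    ∃ D : ℕ, ∀ (L s : ℕ), 0 < L → Nat.Coprime s L → ∀ (Q : Fin (2 * k) → ℕ), (∀ i, 0 < Q i) →
      (∀ i, Nat.Coprime (Q i) L) → (∀ i j, i ≠ j → Nat.Coprime (Q i) (Q j)) →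
      ∀ e : ℝ, 0 < e → ∃ C d B : ℝ, 1 ≤ C ∧ 0 < d ∧ ∀ (M : ℕ) (τ : ℝ) (t : Fin (2 * k) → ℝ), ChainU C B D M τ t →
        ∃ i, ∀ w : Fin (k + 1) → ℕ, (∀ j, Nat.Coprime (w j) (Q i)) → ∀ u : Fin k → ℝ, (∀ j, 0 ≤ u j ∧ u j ≤ 1) →
          d * τ ^ D * M ≤ (({n : ℕ | n < M ∧
            Strings K L s (Q i) w u (t i * Real.log (Nat.nth Nat.Prime n)) e n}).ncard : ℝ) :=
  strk k K (2 * k) hk hK (two_mul_ok k hk)

end Pool.Agent.H34.STK
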