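import Pool.Agent.H34.STK.Grp

/-!
# [H34 STK TREE] The tree with `k + 1` groups at every node, `T` scales
-/

set_option autoImplicit false

namespace Pool.Agent.H34.STK

open Filter Finset Pool.Agent.H82.LS

/-- the intervals: `T` digits `0, ..., k` and a number `< n0` -/
def Nd (k n0 : ℕ) : ℕ → Type
  | 0 => Fin n0
  | T + 1 => Fin (k + 1) × Nd k n0 T

/-- the positions -/
noncomputable def lo {k n0 : ℕ} (v : ℕ → ℕ → ℝ) (c : ℝ) : (T : ℕ) → Nd k n0 T → ℝ
  | 0, l => 2 * ((Fin.val (n := n0) l : ℕ) : ℝ) * c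
  | T + 1, q => v T (Prod.fst (α := Fin (k + 1)) q : Fin (k + 1)) + lo v c T (Prod.snd (α := Fin (k + 1)) q)

/-- the digits -/
def dg {k n0 : ℕ} : (T : ℕ) → Nd k n0 T → ℕ → ℕ
  | 0, _, _ => 0
  | T + 1, q, i => if i = T then (Prod.fst (α := Fin (k + 1)) q : Fin (k + 1)) else
      dg T (Prod.snd (α := Fin (k + 1)) q) i

/-- the widths -/
noncomputable def Wd (k n0 : ℕ) (v : ℕ → ℕ → ℝ) (c : ℝ) : ℕ → ℝ
  | 0 => 2 * n0 * c
  | T + 1 => v T k + Wd k n0 v c T

/-- the numbers of hits -/
def Fb (k K n0 : ℕ) : ℕ → ℕ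
  | 0 => n0
  | T + 1 => k * Fb k K n0 T + (K - 1)

theorem Fb_le {k K n0 : ℕ} (hk : 1 ≤ k) (T : ℕ) : Fb k K n0 T ≤ k ^ T * (n0 + T * K) := by
  induction T with
  | zero => simp [Fb]
  | succ T ih =>
    have h1 : 1 ≤ k ^ (T + 1) := Nat.one_le_pow _ _ hk
    have h2 : k * Fb k K n0 T ≤ k * (k ^ T * (n0 + T * K)) := Nat.mul_le_mul_left k ih
    have h3 : K ≤ k ^ (T + 1) * K := Nat.le_mul_of_pos_left K h1
    show k * Fb k K n0 T + (K - 1) ≤ k ^ (T + 1) * (n0 + (T + 1) * K)
    calc k * Fb k K n0 T + (K - 1) ≤ k * (k ^ T * (n0 + T * K)) + k ^ (T + 1) * K := by omega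
      _ = k ^ (T + 1) * (n0 + (T + 1) * K) := by ring

theorem nd_finite (k n0 T : ℕ) : Finite (Nd k n0 T) := by
  induction T with
  | zero => exact inferInstanceAs (Finite (Fin n0))
  | succ T ih => exact inferInstanceAs (Finite (Fin (k + 1) × Nd k n0 T))

theorem nd_card (k n0 T : ℕ) : Nat.card (Nd k n0 T) = (k + 1) ^ T * n0 := by
  induction T with
  | zero =>
    show Nat.card (Fin n0) = _
    rw [Nat.card_eq_fintype_card, Fintype.card_fin, pow_zero, one_mul]
  | succ T ih =>
    show Nat.card (Fin (k + 1) × Nd k n0 T) = _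
    rw [Nat.card_prod, ih, Nat.card_eq_fintype_card, Fintype.card_fin]
    ring

theorem lo_bd {k n0 : ℕ} {v : ℕ → ℕ → ℝ} {c : ℝ} (hc : 0 ≤ c) (hv : ∀ i a, 0 ≤ v i a)
    (hv' : ∀ i, ∀ a ≤ k, v i a ≤ v i k) :
    ∀ (T : ℕ) (q : Nd k n0 T), 0 ≤ lo v c T q ∧ lo v c T q + c ≤ Wd k n0 v c T := by
  intro T
  induction T with
  | zero =>
    intro q
    show 0 ≤ 2 * ((Fin.val (n := n0) q : ℕ) : ℝ) * c ∧ 2 * ((Fin.val (n := n0) q : ℕ) : ℝ) * c + c ≤ 2 * n0 * c
    refine ⟨by positivity, ?_⟩
    have h1 : ((Fin.val (n := n0) q : ℕ) : ℝ) + 1 ≤ n0 := by exact_mod_cast Fin.isLt (n := n0) q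
    have h2 : (2 * ((Fin.val (n := n0) q : ℕ) : ℝ) + 1) * c ≤ 2 * n0 * c :=
      mul_le_mul_of_nonneg_right (by linarith) hc
    linarith
  | succ T ih =>
    rintro ⟨a, q⟩
    have h1 := ih q
    show 0 ≤ v T (a : Fin (k + 1)) + lo v c T q ∧ v T (a : Fin (k + 1)) + lo v c T q + c ≤ v T k + Wd k n0 v c T
    exact ⟨by linarith [hv T a, h1.1], by linarith [hv' T a (Nat.lt_succ_iff.1 a.2), h1.2]⟩

theorem lo_dis {k n0 : ℕ} {v : ℕ → ℕ → ℝ} {c : ℝ} (hc : 0 < c) (hv : ∀ i a, 0 ≤ v i a)
    (hv' : ∀ i, ∀ a ≤ k, v i a ≤ v i k) :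
    ∀ (T : ℕ), (∀ i < T, ∀ a b, a < b → v i a + Wd k n0 v c i < v i b) → ∀ q q' : Nd k n0 T, q ≠ q' →
      lo v c T q + c < lo v c T q' ∨ lo v c T q' + c < lo v c T q := by
  intro T
  induction T with
  | zero =>
    intro _ q q' hne
    have key : ∀ l l' : Fin n0, l < l' → 2 * ((l : ℕ) : ℝ) * c + c < 2 * ((l' : ℕ) : ℝ) * c := by
      intro l l' h
      have h4 : ((l : ℕ) : ℝ) + 1 ≤ ((l' : ℕ) : ℝ) := by exact_mod_cast h
      have h5 : (2 * ((l : ℕ) : ℝ) + 2) * c ≤ 2 * ((l' : ℕ) : ℝ) * c :=
        mul_le_mul_of_nonneg_right (by linarith) hc.le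
      linarith
    have hne' : (id q : Fin n0) ≠ (id q' : Fin n0) := hne
    rcases lt_or_gt_of_ne hne' with h | h
    · exact Or.inl (key _ _ h)
    · exact Or.inr (key _ _ h)
  | succ T ih =>
    intro hs
    rintro ⟨a, q⟩ ⟨a', q'⟩ hne
    have h1 := lo_bd hc.le hv hv' T q
    have h2 := lo_bd hc.le hv hv' T q'
    show v T (a : Fin (k + 1)) + lo v c T q + c < v T (a' : Fin (k + 1)) + lo v c T q' ∨
      v T (a' : Fin (k + 1)) + lo v c T q' + c < v T (a : Fin (k + 1)) + lo v c T q
    rcases lt_trichotomy a a' with h | h | h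
    · left
      have := hs T (Nat.lt_succ_self T) a a' h
      linarith [h1.2, h2.1]
    · subst h
      have hq : q ≠ q' := fun h3 => hne (by rw [h3])
      rcases ih (fun i hi => hs i (by omega)) q q' hq with h3 | h3
      · left
        linarith
      · right
        linarith
    · right
      have := hs T (Nat.lt_succ_self T) a' a h
      linarith [h2.2, h1.1]

/-- many hits: the pattern occurs at one of the `T` scales -/
theorem tree_main {k K L s N n0 : ℕ} {Q : ℕ → ℕ} {w : ℕ → ℕ → ℕ} {x : ℕ → ℕ → ℝ} {sc : ℕ → ℝ} {v : ℕ → ℕ → ℝ}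
    {c H e : ℝ} (hk : 1 ≤ k) (hK : 1 ≤ K) (hc : 0 < c) (hH : 0 < H) (hv : ∀ i a, 0 ≤ v i a)
    (hv' : ∀ i, ∀ a ≤ k, v i a ≤ v i k) :
    ∀ T : ℕ, (∀ i < T, ∀ a b, a < b → v i a + Wd k n0 v c i < v i b) →
      (∀ i < T, ∀ b < k, |v i (b + 1) - v i b - x i b * sc i| + Wd k n0 v c i < e * sc i) →
    ∀ (A : ℝ), 0 ≤ A → ∀ D : Finset (Nd k n0 T), Fb k K n0 T < D.card →
      (∀ q ∈ D, ∃ y : ℕ, (A + lo v c T q) * H ≤ y ∧ (y : ℝ) ≤ (A + lo v c T q + c) * H ∧ (N + y).Prime) →
      (∀ p : ℕ, p.Prime → N + A * H ≤ p → (p : ℝ) ≤ N + (A + Wd k n0 v c T) * H → ∃ q : Nd k n0 T,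
        N + (A + lo v c T q) * H ≤ p ∧ (p : ℝ) ≤ N + (A + lo v c T q + c) * H ∧ p ≡ s [MOD L] ∧
          ∀ i < T, p ≡ w i (dg T q i) [MOD Q i]) →
      ∃ i < T, ∃ n : ℕ, N + A * H ≤ Nat.nth Nat.Prime n ∧
        (Nat.nth Nat.Prime n : ℝ) ≤ N + (A + Wd k n0 v c T) * H ∧ PatN k K L s (Q i) (w i) (x i) (sc i * H) e n := by
  classical
  intro T
  induction T with
  | zero =>
    intro _ _ A _ D hD
    exfalso
    have h1 : D.card ≤ Fintype.card (Fin n0) := card_le_univ (α := Fin n0) D
    rw [Fintype.card_fin] at h1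
    exact absurd hD (not_lt.2 h1)
  | succ T ih =>
    intro hs hx A hA D hD hhit hcls
    have hW0 : 0 ≤ Wd k n0 v c T := by
      clear * - hc hv
      induction T with
      | zero =>
        show 0 ≤ 2 * (n0 : ℝ) * c
        positivity
      | succ T ih =>
        show 0 ≤ v T k + Wd k n0 v c T
        linarith [hv T k]
    obtain ⟨Da, hDa⟩ : ∃ Da : Fin (k + 1) → Finset (Nd k n0 T), Da = fun a => (D.filter (fun q : Fin (k + 1) ×
      Nd k n0 T => q.1 = a)).image (fun q : Fin (k + 1) × Nd k n0 T => q.2) := ⟨_, rfl⟩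
    have mDa : ∀ a q, q ∈ Da a ↔ ((a, q) : Fin (k + 1) × Nd k n0 T) ∈ D := by
      intro a q
      rw [hDa]
      constructor
      · intro h
        obtain ⟨⟨a', q'⟩, h1, h2⟩ := mem_image.1 h
        obtain ⟨h3, h4⟩ := mem_filter.1 h1
        have h5 : a' = a := h4
        have h6 : q' = q := h2
        rw [← h5, ← h6]
        exact h3
      · intro h
        exact mem_image.2 ⟨(a, q), mem_filter.2 ⟨h, rfl⟩, rfl⟩
    have cDa : ∀ a, (Da a).card = (D.filter (fun q : Fin (k + 1) × Nd k n0 T => q.1 = a)).card := by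
      intro a
      rw [hDa]
      refine card_image_of_injOn ?_
      intro q hq q' hq' h
      have h1 := (mem_filter.1 (mem_coe.1 hq)).2
      have h2 := (mem_filter.1 (mem_coe.1 hq')).2
      exact Prod.ext (h1.trans h2.symm) h
    have csum : D.card = ∑ a, (Da a).card := by
      rw [Finset.sum_congr rfl fun a _ => cDa a]
      exact card_eq_sum_card_fiberwise (f := fun q : Fin (k + 1) × Nd k n0 T => q.1) (t := univ)
        (fun _ _ => mem_coe.2 (mem_univ _))
    -- one prime from every hit interval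
    have hhit' : ∀ a, ∀ q ∈ Da a, ∃ y : ℕ, (A + v T (a : ℕ) + lo v c T q) * H ≤ y ∧
        (y : ℝ) ≤ (A + v T (a : ℕ) + lo v c T q + c) * H ∧ (N + y).Prime := by
      intro a q hq
      obtain ⟨y, h1, h2, h3⟩ := hhit _ ((mDa a q).1 hq)
      refine ⟨y, ?_, ?_, h3⟩
      · refine le_trans (le_of_eq ?_) h1
        show (A + v T (a : ℕ) + lo v c T q) * H = (A + (v T (a : ℕ) + lo v c T q)) * H
        ring
      · refine h2.trans (le_of_eq ?_)
        show (A + (v T (a : ℕ) + lo v c T q) + c) * H = (A + v T (a : ℕ) + lo v c T q + c) * H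
        ring
    have hWT : Wd k n0 v c (T + 1) = v T k + Wd k n0 v c T := rfl
    by_cases hall : ∀ a, K ≤ (Da a).card
    · -- all groups are large
      have hex : ∀ b : ℕ, ∃ S : Finset ℕ, b ≤ k → (K ≤ S.card ∧ ∀ p ∈ S, p.Prime ∧ N + A * H + v T b * H ≤ p ∧
          (p : ℝ) ≤ N + A * H + v T b * H + Wd k n0 v c T * H) := by
        intro b
        by_cases hb : b ≤ k
        · obtain ⟨a, ha⟩ : ∃ a : Fin (k + 1), (a : ℕ) = b := ⟨⟨b, Nat.lt_succ_of_le hb⟩, rfl⟩
          choose! g hg using hhit' a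
          refine ⟨(Da a).image (fun q => N + g q), fun _ => ⟨?_, ?_⟩⟩
          · rw [Finset.card_image_of_injOn]
            · exact hall a
            · intro q hq q' hq' heq
              have h1 := hg q hq
              have h2 := hg q' hq'
              have h3 : g q = g q' := by
                have : N + g q = N + g q' := heq
                omega
              rw [← h3] at h2
              by_contra hne
              rcases lo_dis hc hv hv' T (fun i hi => hs i (by omega)) q q' hne with h4 | h4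
              · have h5 := mul_lt_mul_of_pos_right
                  (show A + v T (a : ℕ) + lo v c T q + c < A + v T (a : ℕ) + lo v c T q' by linarith) hH
                linarith [h1.2.1, h2.1]
              · have h5 := mul_lt_mul_of_pos_right
                  (show A + v T (a : ℕ) + lo v c T q' + c < A + v T (a : ℕ) + lo v c T q by linarith) hH
                linarith [h1.1, h2.2.1]
          · intro p hp
            obtain ⟨q, hq, rfl⟩ := Finset.mem_image.1 hp
            obtain ⟨h1, h2, h3⟩ := hg q hq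
            have h4 := lo_bd hc.le hv hv' T q
            have h5 := mul_le_mul_of_nonneg_right
              (show A + v T (a : ℕ) ≤ A + v T (a : ℕ) + lo v c T q by linarith [h4.1]) hH.le
            have h6 := mul_le_mul_of_nonneg_right
              (show A + v T (a : ℕ) + lo v c T q + c ≤ A + v T (a : ℕ) + Wd k n0 v c T by linarith [h4.2]) hH.le
            rw [add_mul A] at h5
            rw [add_mul (A + v T (a : ℕ)) (Wd k n0 v c T), add_mul A] at h6
            rw [← ha]
            push_cast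
            exact ⟨h3, by linarith, by linarith⟩
        · exact ⟨∅, fun h => absurd h hb⟩
      choose S hS using hex
      obtain ⟨n, hn1, hn2, hn3⟩ := pat_grp (k := k) (K := K) (L := L) (s := s) (Q := Q T) (N := N) (w := w T)
        (x := x T) (z := sc T * H) (e := e) (A := A * H) (W := Wd k n0 v c T * H) (V := fun b => v T b * H) hk hK
        (mul_nonneg hA hH.le) (mul_nonneg hW0 hH.le) (fun b => mul_nonneg (hv T b) hH.le)
        (fun a b hab => by
          have h1 := mul_lt_mul_of_pos_right (hs T (Nat.lt_succ_self T) a b hab) hH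
          rw [add_mul] at h1
          exact h1)
        (fun b hb => by
          have h1 := mul_lt_mul_of_pos_right (hx T (Nat.lt_succ_self T) b hb) hH
          have h2 : v T (b + 1) * H - v T b * H - x T b * (sc T * H) = (v T (b + 1) - v T b - x T b * sc T) * H := by
            ring
          rw [h2, abs_mul, abs_of_pos hH]
          rw [add_mul, mul_assoc] at h1
          exact h1)
        (by
          intro p hp h1 h2
          obtain ⟨⟨a, q⟩, h3, h4, h5, h6⟩ := hcls p hp h1 (by
            rw [hWT, add_mul, add_mul]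
            linarith)
          have hlo : lo v c (T + 1) ((a, q) : Fin (k + 1) × Nd k n0 T) = v T (a : ℕ) + lo v c T q := rfl
          rw [hlo] at h3 h4
          have h7 := lo_bd hc.le hv hv' T q
          have h8 := mul_le_mul_of_nonneg_right
            (show A + v T (a : ℕ) ≤ A + (v T (a : ℕ) + lo v c T q) by linarith [h7.1]) hH.le
          have h9 := mul_le_mul_of_nonneg_right
            (show A + (v T (a : ℕ) + lo v c T q) + c ≤ A + v T (a : ℕ) + Wd k n0 v c T by linarith [h7.2]) hH.le
          rw [add_mul A] at h8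
          rw [add_mul (A + v T (a : ℕ)) (Wd k n0 v c T), add_mul A] at h9
          refine ⟨a, Nat.lt_succ_iff.1 a.2, by linarith, by linarith, h5, ?_⟩
          have h10 := h6 T (Nat.lt_succ_self T)
          have h11 : dg (T + 1) ((a, q) : Fin (k + 1) × Nd k n0 T) T = (a : ℕ) := if_pos rfl
          rw [h11] at h10
          exact h10)
        S (fun b hb => (hS b hb).1) (fun b hb => (hS b hb).2)
      refine ⟨T, Nat.lt_succ_self T, n, hn1, ?_, hn3⟩
      rw [hWT, add_mul, add_mul]
      linarith
    · -- one group is small: another one is large enough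
      push Not at hall
      obtain ⟨a0, ha0⟩ := hall
      obtain ⟨a, ha⟩ : ∃ a, Fb k K n0 T < (Da a).card := by
        by_contra hcon
        push Not at hcon
        have h1 : ∑ a, (Da a).card = (Da a0).card + ∑ a ∈ univ.erase a0, (Da a).card :=
          (add_sum_erase univ (fun a => (Da a).card) (mem_univ a0)).symm
        have h2 : ∑ a ∈ univ.erase a0, (Da a).card ≤ ∑ _a ∈ univ.erase a0, Fb k K n0 T :=
          sum_le_sum fun a _ => hcon a
        rw [sum_const, card_erase_of_mem (mem_univ a0), card_univ, Fintype.card_fin, smul_eq_mul,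
          Nat.add_sub_cancel] at h2
        have h3 : k * Fb k K n0 T + (K - 1) < D.card := hD
        omega
      obtain ⟨i, hi, n, h1, h2, h3⟩ := ih (fun i hi => hs i (by omega)) (fun i hi => hx i (by omega))
        (A + v T (a : ℕ)) (by linarith [hv T a]) (Da a) ha (hhit' a) (by
          intro p hp h1 h2
          have hva : 0 ≤ v T (a : ℕ) * H := mul_nonneg (hv T a) hH.le
          have hvk : v T (a : ℕ) * H ≤ v T k * H :=
            mul_le_mul_of_nonneg_right (hv' T a (Nat.lt_succ_iff.1 a.2)) hH.le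
          rw [add_mul] at h1
          rw [add_mul, add_mul] at h2
          obtain ⟨⟨a', q⟩, h3, h4, h5, h6⟩ := hcls p hp (by linarith) (by
            rw [hWT, add_mul, add_mul]
            linarith)
          have hlo : lo v c (T + 1) ((a', q) : Fin (k + 1) × Nd k n0 T) = v T (a' : ℕ) + lo v c T q := rfl
          rw [hlo] at h3 h4
          have h7 := lo_bd hc.le hv hv' T q
          have h8 := mul_le_mul_of_nonneg_right
            (show A + v T (a' : ℕ) ≤ A + (v T (a' : ℕ) + lo v c T q) by linarith [h7.1]) hH.le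
          have h9 := mul_le_mul_of_nonneg_right
            (show A + (v T (a' : ℕ) + lo v c T q) + c ≤ A + v T (a' : ℕ) + Wd k n0 v c T by linarith [h7.2]) hH.le
          rw [add_mul A] at h8
          rw [add_mul (A + v T (a' : ℕ)) (Wd k n0 v c T), add_mul A] at h9
          have haa : a' = a := by
            rcases lt_trichotomy a' a with h | h | h
            · exfalso
              have h10 := mul_lt_mul_of_pos_right (hs T (Nat.lt_succ_self T) a' a h) hH
              rw [add_mul] at h10
              linarith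
            · exact h
            · exfalso
              have h10 := mul_lt_mul_of_pos_right (hs T (Nat.lt_succ_self T) a a' h) hH
              rw [add_mul] at h10
              linarith
          rw [haa] at h3 h4
          refine ⟨q, ?_, ?_, h5, fun i hi => ?_⟩
          · refine le_trans (le_of_eq ?_) h3
            ring
          · refine h4.trans (le_of_eq ?_)
            ring
          · have h10 := h6 i (by omega)
            have h11 : dg (T + 1) ((a', q) : Fin (k + 1) × Nd k n0 T) i = dg T q i := if_neg (by omega)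
            rw [h11] at h10
            exact h10)
      have hva : 0 ≤ v T (a : ℕ) * H := mul_nonneg (hv T a) hH.le
      have hvk : v T (a : ℕ) * H ≤ v T k * H :=
        mul_le_mul_of_nonneg_right (hv' T a (Nat.lt_succ_iff.1 a.2)) hH.le
      rw [add_mul] at h1
      rw [add_mul, add_mul] at h2
      refine ⟨i, by omega, n, by linarith, ?_, h3⟩
      rw [hWT, add_mul, add_mul]
      linarith

end Pool.Agent.H34.STK
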